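import Pool.Agent.H77.GQ.Stm3

set_option autoImplicit false

/-! EXO: a free arrangement of planes has the exponents `1, a, b` (helper22). -/

open MvPolynomial Module Pool.Agent.H77.TF Pool.Agent.H77.GQ

namespace Pool.Agent.H22.GQ

theorem lin_hom {K : Type} [Field K] {l : ℕ} (a : Fin l → K) : (lin a).IsHomogeneous 1 := by
  unfold lin
  exact IsHomogeneous.sum _ _ _ fun i _ => isHomogeneous_C_mul_X _ _

theorem lin_ne {K : Type} [Field K] {l : ℕ} {a : Fin l → K} (ha : a ≠ 0) : lin a ≠ 0 := by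
  intro h
  refine ha (funext fun k => ?_)
  have h1 := congrArg (eval (Pi.single k (1 : K))) h
  simpa [lin, Pi.single_apply] using h1

theorem evl_sum {K : Type} [Field K] {l : ℕ} (a : Fin l → K) {ι : Type} [Fintype ι]
    (c : ι → MvPolynomial (Fin l) K) (v : ι → Fin l → MvPolynomial (Fin l) K) :
    evl a (∑ j, c j • v j) = ∑ j, c j * evl a (v j) := by
  unfold evl
  simp only [Finset.sum_apply, Pi.smul_apply, smul_eq_mul, Finset.mul_sum]
  rw [Finset.sum_comm]
  refine Finset.sum_congr rfl fun i _ => Finset.sum_congr rfl fun j _ => ?_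
  ring

theorem evl_hom {K : Type} [Field K] {l : ℕ} (a : Fin l → K) {v : Fin l → MvPolynomial (Fin l) K}
    {m : ℕ} (hv : ∀ i, (v i).IsHomogeneous m) : (evl a v).IsHomogeneous m := by
  unfold evl
  refine IsHomogeneous.sum _ _ _ fun i _ => ?_
  simpa using (isHomogeneous_C (Fin l) (a i)).mul (hv i)

/-- the component of degree one of a multiple of a form of degree at least two -/
theorem comp_mul {K : Type} [Field K] {l : ℕ} (c p : MvPolynomial (Fin l) K) {m : ℕ} (hm : 2 ≤ m)
    (hp : p.IsHomogeneous m) : homogeneousComponent 1 (c * p) = 0 := by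
  have h1 : c * p = ∑ i ∈ Finset.range (c.totalDegree + 1), homogeneousComponent i c * p := by
    rw [← Finset.sum_mul, sum_homogeneousComponent]
  rw [h1, map_sum]
  refine Finset.sum_eq_zero fun i _ => ?_
  have h2 : (homogeneousComponent i c * p) ∈ homogeneousSubmodule (Fin l) K (i + m) :=
    (homogeneousComponent_isHomogeneous i c).mul hp
  rw [homogeneousComponent_of_mem h2, if_neg (by omega)]

/-- a form of degree zero divisible by a linear form is zero -/
theorem dvd_const {K : Type} [Field K] {l : ℕ} {a : Fin l → K} (ha : a ≠ 0)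
    {p : MvPolynomial (Fin l) K} (hp : p.IsHomogeneous 0) (h : lin a ∣ p) : p = 0 := by
  by_contra hne
  obtain ⟨g, hg⟩ := h
  have hg0 : g ≠ 0 := by
    rintro rfl
    rw [mul_zero] at hg
    exact hne hg
  have h1 := totalDegree_mul_of_isDomain (lin_ne ha) hg0
  rw [← hg, hp.totalDegree hne, (lin_hom a).totalDegree (lin_ne ha)] at h1
  omega

theorem perm {K : Type} [Field K] {ν : Type} {A : ν → Fin 3 → K} {e : Fin 3 → ℕ} (h : HasExp A e)
    (σ : Equiv.Perm (Fin 3)) : HasExp A (fun j => e (σ j)) := by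
  obtain ⟨b, hb⟩ := h
  refine ⟨b.reindex σ.symm, fun j i => ?_⟩
  rw [Basis.reindex_apply, Equiv.symm_symm]
  exact hb (σ j) i

theorem sort3 {K : Type} [Field K] {ν : Type} {A : ν → Fin 3 → K} {x y z : ℕ}
    (h : HasExp A ![x, y, z]) : HasExp A ![y, x, z] ∧ HasExp A ![x, z, y] := by
  constructor
  · have h1 := perm h (Equiv.swap 0 1)
    have e1 : (fun j => (![x, y, z] : Fin 3 → ℕ) (Equiv.swap 0 1 j)) = ![y, x, z] := by
      funext j
      fin_cases j <;> rfl
    rwa [e1] at h1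
  · have h1 := perm h (Equiv.swap 1 2)
    have e1 : (fun j => (![x, y, z] : Fin 3 → ℕ) (Equiv.swap 1 2 j)) = ![x, z, y] := by
      funext j
      fin_cases j <;> rfl
    rwa [e1] at h1

/-- **EXO** -/
theorem exo (hGRD : S_GRD) : S_EXO := by
  intro K _ n A hA hn hfree
  obtain ⟨e, he⟩ := hGRD K 3 (Fin n) A hA hfree
  have hone : ∃ j, e j = 1 := by
    by_contra hcon
    push Not at hcon
    obtain ⟨b, hb⟩ := he
    have hθ : (fun k => X k : Fin 3 → MvPolynomial (Fin 3) K) ∈ LD A := fun i => dvd_refl _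
    have h1 := b.sum_repr ⟨_, hθ⟩
    have h2 := congrArg (fun v : LD A => evl (A ⟨0, hn⟩) (v : Fin 3 → MvPolynomial (Fin 3) K)) h1
    simp only [AddSubmonoidClass.coe_finsetSum, Submodule.coe_smul] at h2
    rw [evl_sum] at h2
    have h3 : evl (A ⟨0, hn⟩) (fun k => X k : Fin 3 → MvPolynomial (Fin 3) K) = lin (A ⟨0, hn⟩) := rfl
    rw [h3] at h2
    have h4 := congrArg (homogeneousComponent 1) h2
    rw [map_sum] at h4
    have h5 : homogeneousComponent 1 (lin (A ⟨0, hn⟩)) = lin (A ⟨0, hn⟩) := by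
      rw [homogeneousComponent_of_mem (lin_hom (A ⟨0, hn⟩)), if_pos rfl]
    rw [h5] at h4
    refine lin_ne (hA.1 ⟨0, hn⟩) ?_
    rw [← h4]
    refine Finset.sum_eq_zero fun j _ => ?_
    have hhom := evl_hom (A ⟨0, hn⟩) (hb j)
    have hdvd : lin (A ⟨0, hn⟩) ∣ evl (A ⟨0, hn⟩) (b j : Fin 3 → MvPolynomial (Fin 3) K) :=
      (b j).2 ⟨0, hn⟩
    have hj := hcon j
    rcases Nat.eq_zero_or_pos (e j) with h6 | h6
    · rw [h6] at hhom
      rw [dvd_const (hA.1 ⟨0, hn⟩) hhom hdvd, mul_zero, map_zero]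
    · exact comp_mul _ _ (by omega) hhom
  have hfin : ∀ x y z : ℕ, HasExp A ![x, y, z] → x = 1 → ∃ a b : ℕ, a ≤ b ∧ HasExp A ![1, a, b] := by
    rintro x y z h rfl
    rcases le_total y z with h1 | h1
    · exact ⟨y, z, h1, h⟩
    · exact ⟨z, y, h1, (sort3 h).2⟩
  have he' : HasExp A ![e 0, e 1, e 2] := by
    have : (![e 0, e 1, e 2] : Fin 3 → ℕ) = e := by
      funext j
      fin_cases j <;> rfl
    rw [this]
    exact he
  obtain ⟨j, hj⟩ := hone
  fin_cases j
  · exact hfin _ _ _ he' hj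
  · exact hfin _ _ _ (sort3 he').1 hj
  · exact hfin _ _ _ (sort3 (sort3 he').2).1 hj

end Pool.Agent.H22.GQ
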