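import Pool.Agent.H77.GQ.Stm
import Pool.Agent.H27.TF.Pl3

set_option autoImplicit false

/-! UNC: the number of the uncovered points of an arrangement over a finite field (helper22). -/

open MvPolynomial Module Pool.Agent.H77.TF Pool.Agent.H77.GR Pool.Agent.H77.GQ
open Pool.Agent.H27.TF (exists_normal exists_plane)

namespace Pool.Agent.H22.GQ

theorem finrank_pair {F V : Type} [Field F] [AddCommGroup V] [Module F V] (u v : V) (hu : u ≠ 0)
    (h : ∀ c : F, v ≠ c • u) : finrank F (Submodule.span F {u, v}) = 2 := by
  have h1 : LinearIndependent F ![u, v] :=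
    (LinearIndependent.pair_iff' hu).2 fun a ha => h a ha.symm
  have h2 := finrank_span_eq_card h1
  rw [Fintype.card_fin, Matrix.range_cons, Matrix.range_cons, Matrix.range_empty, Set.union_empty] at h2
  exact h2

section

variable {K : Type} [Field K]

theorem prop_of_ann {p p' : Fin 3 → K} (j : Fin 3) (hj : p j ≠ 0)
    (h : ∀ a : Fin 3 → K, a ⬝ᵥ p = 0 → a ⬝ᵥ p' = 0) : (p' j / p j) • p = p' := by
  funext i
  have h1 := h (p j • Pi.single i 1 - p i • Pi.single j 1) (by
    rw [sub_dotProduct, smul_dotProduct, smul_dotProduct, single_dotProduct, single_dotProduct]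
    simp only [smul_eq_mul]
    ring)
  rw [sub_dotProduct, smul_dotProduct, smul_dotProduct, single_dotProduct, single_dotProduct] at h1
  simp only [smul_eq_mul, one_mul] at h1
  rw [Pi.smul_apply, smul_eq_mul]
  field_simp
  linear_combination -h1

/-- the plane of the forms which vanish at a point -/
noncomputable def toPl (p : Projectivization K (Fin 3 → K)) : Submodule K (Fin 3 → K) :=
  (exists_plane p.rep p.rep_nonzero).choose

theorem toPl_rank (p : Projectivization K (Fin 3 → K)) : finrank K (toPl p) = 2 :=
  (exists_plane p.rep p.rep_nonzero).choose_spec.1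

theorem mem_toPl (p : Projectivization K (Fin 3 → K)) (a : Fin 3 → K) :
    a ∈ toPl p ↔ a ⬝ᵥ p.rep = 0 := (exists_plane p.rep p.rep_nonzero).choose_spec.2 a

theorem toPl_inj : Function.Injective (toPl (K := K)) := by
  intro p p' h
  obtain ⟨j, hj⟩ := Function.ne_iff.1 p.rep_nonzero
  have h1 := prop_of_ann (p := p.rep) (p' := p'.rep) j hj (fun a ha => by
    rw [← mem_toPl, ← h, mem_toPl]
    exact ha)
  rw [← p.mk_rep, ← p'.mk_rep, eq_comm, Projectivization.mk_eq_mk_iff']
  exact ⟨_, h1⟩

theorem toPl_surj (W : Submodule K (Fin 3 → K)) (hW : finrank K W = 2) : ∃ p, toPl p = W := by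
  obtain ⟨v, hv, hvW⟩ := exists_normal W hW
  refine ⟨Projectivization.mk K v hv, ?_⟩
  obtain ⟨u, hu⟩ := Projectivization.exists_smul_eq_mk_rep K v hv
  ext a
  rw [mem_toPl, hvW, ← hu]
  have h1 : a ⬝ᵥ (u • v) = (u : K) * (a ⬝ᵥ v) := by
    rw [Units.smul_def, dotProduct_smul, smul_eq_mul]
  rw [h1, mul_eq_zero]
  exact ⟨fun h => h.resolve_left u.ne_zero, fun h => Or.inr h⟩

variable [Fintype K]

theorem card_pts (U : Submodule K (Fin 3 → K)) (hU : finrank K U = 2) :
    {p : Projectivization K (Fin 3 → K) | p.rep ∈ U}.ncard = Fintype.card K + 1 := by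
  have h1 : {p : Projectivization K (Fin 3 → K) | p.rep ∈ U} =
      (Projectivization.map U.subtype U.injective_subtype) '' Set.univ := by
    ext p
    simp only [Set.mem_ofPred_eq, Set.image_univ, Set.mem_range]
    constructor
    · intro hp
      refine ⟨Projectivization.mk K ⟨p.rep, hp⟩ (fun h => p.rep_nonzero (congrArg Subtype.val h)), ?_⟩
      rw [Projectivization.map_mk]
      exact p.mk_rep
    · rintro ⟨x, rfl⟩
      induction x using Projectivization.ind with
      | h v hv =>
        rw [Projectivization.map_mk]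
        obtain ⟨u, hu⟩ := Projectivization.exists_smul_eq_mk_rep K (U.subtype v)
          (fun h => hv (U.injective_subtype (by rw [h, map_zero])))
        rw [← hu]
        exact U.smul_mem (u : K) v.2
  rw [h1, Set.ncard_image_of_injective _ (Projectivization.map_injective U.subtype U.injective_subtype),
    Set.ncard_univ, Projectivization.card_of_finrank_two K U hU, Nat.card_eq_fintype_card]

theorem ncard_all : {W : Submodule K (Fin 3 → K) | finrank K W = 2}.ncard =
    Fintype.card K ^ 2 + Fintype.card K + 1 := by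
  have h1 : {W : Submodule K (Fin 3 → K) | finrank K W = 2} = toPl '' Set.univ := by
    ext W
    simp only [Set.mem_ofPred_eq, Set.image_univ, Set.mem_range]
    constructor
    · exact fun h => toPl_surj W h
    · rintro ⟨p, rfl⟩
      exact toPl_rank p
  rw [h1, Set.ncard_image_of_injective _ toPl_inj, Set.ncard_univ,
    Projectivization.card_of_finrank K (Fin 3 → K) (n := 3) (by rw [finrank_fin_fun]),
    Nat.card_eq_fintype_card]
  simp only [Finset.sum_range_succ, Finset.sum_range_zero]
  ring

theorem ncard_thr (a : Fin 3 → K) (ha : a ≠ 0) :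
    {W : Submodule K (Fin 3 → K) | finrank K W = 2 ∧ a ∈ W}.ncard = Fintype.card K + 1 := by
  obtain ⟨U, hU, hUm⟩ := exists_plane a ha
  have h1 : {W : Submodule K (Fin 3 → K) | finrank K W = 2 ∧ a ∈ W} =
      toPl '' {p : Projectivization K (Fin 3 → K) | p.rep ∈ U} := by
    ext W
    simp only [Set.mem_ofPred_eq, Set.mem_image]
    constructor
    · rintro ⟨h2, h3⟩
      obtain ⟨p, rfl⟩ := toPl_surj W h2
      refine ⟨p, ?_, rfl⟩
      rw [hUm, dotProduct_comm, ← mem_toPl]
      exact h3
    · rintro ⟨p, hp, rfl⟩
      refine ⟨toPl_rank p, ?_⟩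
      rw [mem_toPl, dotProduct_comm, ← hUm]
      exact hp
  rw [h1, Set.ncard_image_of_injective _ toPl_inj, card_pts U hU]

end

/-- **UNC** -/
theorem unc : S_UNC := by
  intro K _ _ n A hA
  have hfin : ∀ S : Set (Submodule K (Fin 3 → K)), S.Finite := fun S => Set.toFinite S
  have key : ∀ k : ℕ, k ≤ n →
      ({W : Submodule K (Fin 3 → K) | finrank K W = 2 ∧ ∀ i : Fin n, (i : ℕ) < k → A i ∉ W}.ncard : ℤ) =
        (Fintype.card K : ℤ) ^ 2 + Fintype.card K + 1 -
          ∑ s ∈ Finset.univ.filter (fun s : Fin n => (s : ℕ) < k), ((Fintype.card K : ℤ) + 1 - hn A s) := by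
    intro k
    induction k with
    | zero =>
      intro _
      have h1 : {W : Submodule K (Fin 3 → K) | finrank K W = 2 ∧ ∀ i : Fin n, (i : ℕ) < 0 → A i ∉ W} =
          {W : Submodule K (Fin 3 → K) | finrank K W = 2} := by
        ext W
        simp
      rw [h1, ncard_all]
      simp
    | succ k ih =>
      intro hk
      have hkn : k < n := by omega
      have ih' := ih hkn.le
      set s : Fin n := ⟨k, hkn⟩ with hs
      set R : Set (Submodule K (Fin 3 → K)) :=
        Set.range fun i : Fin (s : ℕ) => Submodule.span K {A s, A (Fin.castLE s.2.le i)} with hR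
      have hRm : ∀ W, W ∈ R ↔ (finrank K W = 2 ∧ A s ∈ W) ∧ ∃ i : Fin n, (i : ℕ) < k ∧ A i ∈ W := by
        intro W
        constructor
        · rintro ⟨i, rfl⟩
          have hne : (Fin.castLE s.2.le i : Fin n) ≠ s := by
            intro h
            have h2 := congrArg Fin.val h
            rw [Fin.val_castLE] at h2
            have := i.2
            omega
          refine ⟨⟨finrank_pair _ _ (hA.1 s) (fun c => hA.2 _ s hne c), Submodule.subset_span (by simp)⟩,
            Fin.castLE s.2.le i, ?_, Submodule.subset_span (by simp)⟩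
          rw [Fin.val_castLE]
          exact i.2
        · rintro ⟨⟨h2, h3⟩, i, hi, h4⟩
          refine ⟨⟨(i : ℕ), hi⟩, ?_⟩
          have hii : (Fin.castLE s.2.le ⟨(i : ℕ), hi⟩ : Fin n) = i := Fin.ext rfl
          simp only [hii]
          have hne : i ≠ s := by
            intro h
            have h5 := congrArg Fin.val h
            rw [hs] at h5
            simp only at h5
            omega
          refine Submodule.eq_of_le_of_finrank_eq (Submodule.span_le.2 ?_) ?_
          · intro x hx
            rcases hx with rfl | hx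
            · exact h3
            · rw [Set.mem_singleton_iff.1 hx]
              exact h4
          · rw [finrank_pair _ _ (hA.1 s) (fun c => hA.2 i s hne c), h2]
      have hsplit : {W : Submodule K (Fin 3 → K) | finrank K W = 2 ∧ ∀ i : Fin n, (i : ℕ) < k → A i ∉ W} =
          {W : Submodule K (Fin 3 → K) | finrank K W = 2 ∧ ∀ i : Fin n, (i : ℕ) < k + 1 → A i ∉ W} ∪
            ({W : Submodule K (Fin 3 → K) | finrank K W = 2 ∧ A s ∈ W} \ R) := by
        ext W
        simp only [Set.mem_union, Set.mem_diff, Set.mem_ofPred_eq, hRm]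
        constructor
        · rintro ⟨h1, h2⟩
          by_cases h3 : A s ∈ W
          · right
            refine ⟨⟨h1, h3⟩, ?_⟩
            rintro ⟨-, i, hi, hiW⟩
            exact h2 i hi hiW
          · left
            refine ⟨h1, fun i hi => ?_⟩
            rcases Nat.lt_succ_iff_lt_or_eq.1 hi with h4 | h4
            · exact h2 i h4
            · have h5 : i = s := Fin.ext h4
              rw [h5]
              exact h3
        · rintro (⟨h1, h2⟩ | ⟨⟨h1, h2⟩, h3⟩)
          · exact ⟨h1, fun i hi => h2 i (by omega)⟩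
          · exact ⟨h1, fun i hi hiW => h3 ⟨⟨h1, h2⟩, i, hi, hiW⟩⟩
      have hdisj : Disjoint
          {W : Submodule K (Fin 3 → K) | finrank K W = 2 ∧ ∀ i : Fin n, (i : ℕ) < k + 1 → A i ∉ W}
          ({W : Submodule K (Fin 3 → K) | finrank K W = 2 ∧ A s ∈ W} \ R) := by
        rw [Set.disjoint_left]
        intro W h1 h2
        exact h1.2 s (Nat.lt_succ_self k) h2.1.2
      have hRs : R ⊆ {W : Submodule K (Fin 3 → K) | finrank K W = 2 ∧ A s ∈ W} :=
        fun W hW => ((hRm W).1 hW).1
      have hc1 := Set.ncard_union_eq hdisj (hfin _) (hfin _)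
      rw [← hsplit] at hc1
      have hc2 := Set.ncard_diff hRs (hfin _)
      have hc3 := Set.ncard_le_ncard hRs (hfin _)
      rw [ncard_thr _ (hA.1 s)] at hc2 hc3
      have hc4 : hn A s = R.ncard := rfl
      have hsum : ∑ t ∈ Finset.univ.filter (fun t : Fin n => (t : ℕ) < k + 1),
          ((Fintype.card K : ℤ) + 1 - hn A t) =
          ∑ t ∈ Finset.univ.filter (fun t : Fin n => (t : ℕ) < k), ((Fintype.card K : ℤ) + 1 - hn A t) +
            ((Fintype.card K : ℤ) + 1 - hn A s) := by
        have e1 : Finset.univ.filter (fun t : Fin n => (t : ℕ) < k + 1) =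
            insert s (Finset.univ.filter (fun t : Fin n => (t : ℕ) < k)) := by
          ext t
          simp only [Finset.mem_filter, Finset.mem_univ, true_and, Finset.mem_insert]
          constructor
          · intro h
            rcases Nat.lt_succ_iff_lt_or_eq.1 h with h4 | h4
            · exact Or.inr h4
            · exact Or.inl (Fin.ext h4)
          · rintro (h | h)
            · rw [h]
              exact Nat.lt_succ_self k
            · omega
        rw [e1, Finset.sum_insert (by
          rw [Finset.mem_filter]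
          rintro ⟨-, h⟩
          exact lt_irrefl k h), add_comm]
      rw [hsum, hc4]
      omega
  have h1 := key n le_rfl
  have h2 : uncD A = {W : Submodule K (Fin 3 → K) | finrank K W = 2 ∧
      ∀ i : Fin n, (i : ℕ) < n → A i ∉ W}.ncard := by
    have e1 : {W : Submodule K (Fin 3 → K) | finrank K W = 2 ∧ ∀ i : Fin n, (i : ℕ) < n → A i ∉ W} =
        {W : Submodule K (Fin 3 → K) | finrank K W = 2 ∧ ∀ i, A i ∉ W} := by
      ext W
      simp only [Set.mem_ofPred_eq]
      exact ⟨fun h => ⟨h.1, fun i => h.2 i i.2⟩, fun h => ⟨h.1, fun i _ => h.2 i⟩⟩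
    rw [e1]
    rfl
  rw [h2, h1]
  congr 1
  refine Finset.sum_congr ?_ fun _ _ => rfl
  ext t
  simp

end Pool.Agent.H22.GQ
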